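import Pool.Agent.H14.AVS.S4

/-!
# AVS, module MAS: the mass formula over a finite local ring
-/

set_option autoImplicit false
set_option linter.unusedSectionVars false

namespace Pool.AVS

open Polynomial Matrix Pool.AVR

namespace MAS

section Gen

variable {R : Type} [CommRing R]

/-- A symmetric matrix from its six entries. -/
def mk6 (p q r s t u : R) : Matrix (Fin 3) (Fin 3) R := !![p, q, r; q, s, t; r, t, u]

theorem mk6_T (p q r s t u : R) : (mk6 p q r s t u)ᵀ = mk6 p q r s t u := by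
  ext i j
  fin_cases i <;> fin_cases j <;> rfl

theorem sym3 {B : Matrix (Fin 3) (Fin 3) R} (h : Bᵀ = B) :
    B 1 0 = B 0 1 ∧ B 2 0 = B 0 2 ∧ B 2 1 = B 1 2 := by
  refine ⟨?_, ?_, ?_⟩
  · have := congrFun (congrFun h 0) 1
    simpa using this
  · have := congrFun (congrFun h 0) 2
    simpa using this
  · have := congrFun (congrFun h 1) 2
    simpa using this

theorem eq_mk6 {B : Matrix (Fin 3) (Fin 3) R} (h : Bᵀ = B) :
    B = mk6 (B 0 0) (B 0 1) (B 0 2) (B 1 1) (B 1 2) (B 2 2) := by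
  obtain ⟨h1, h2, h3⟩ := sym3 h
  ext i j
  fin_cases i <;> fin_cases j <;> simp [mk6, h1, h2, h3]

theorem ic_mk6 (p q r s t u : R) : ic (mk6 p q r s t u) =
    p * (s * u - t ^ 2) - q * (q * u - t * r) + r * (q * t - s * r) := by
  simp only [ic, mk6, det_fin_three]
  simp
  ring

theorem ia_mk6 (p q r s t u : R) : ia (mk6 p q r s t u) = -(2 * r + s) := by
  simp [ia, mk6]

theorem ib_mk6 (p q r s t u : R) : ib (mk6 p q r s t u) =
    2 * r * s - 2 * t * q + r ^ 2 - u * p := by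
  simp [ib, mk6]

theorem mem_Fb {a b c : R} {B : Matrix (Fin 3) (Fin 3) R} (hB : B ∈ Fb a b c) :
    a = -(2 * B 0 2 + B 1 1) ∧
    b = 2 * B 0 2 * B 1 1 - 2 * B 1 2 * B 0 1 + B 0 2 ^ 2 - B 2 2 * B 0 0 ∧
    c = B 0 0 * (B 1 1 * B 2 2 - B 1 2 ^ 2) - B 0 1 * (B 0 1 * B 2 2 - B 1 2 * B 0 2) +
      B 0 2 * (B 0 1 * B 1 2 - B 1 1 * B 0 2) := by
  obtain ⟨h0, h1, h2, h3⟩ := hB
  refine ⟨h1.symm, h2.symm, ?_⟩
  rw [← h3]
  have h4 := eq_mk6 h0
  calc ic B = ic (mk6 (B 0 0) (B 0 1) (B 0 2) (B 1 1) (B 1 2) (B 2 2)) := by rw [← h4]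
    _ = _ := ic_mk6 _ _ _ _ _ _

theorem mk6_mem {a b c p q r s t u : R} (h1 : a = -(2 * r + s))
    (h2 : b = 2 * r * s - 2 * t * q + r ^ 2 - u * p)
    (h3 : c = p * (s * u - t ^ 2) - q * (q * u - t * r) + r * (q * t - s * r)) :
    mk6 p q r s t u ∈ Fb a b c :=
  ⟨mk6_T _ _ _ _ _ _, by rw [ia_mk6, h1], by rw [ib_mk6, h2], by rw [ic_mk6, h3]⟩

/-- The key identity. -/
theorem key (W q r s t u x : R) (h : W ^ 2 * (x - s) = q ^ 2) :
    W ^ 2 * (x ^ 3 + -(2 * r + s) * x ^ 2 + (2 * r * s - 2 * t * q + r ^ 2 - u * (-W ^ 2)) * x +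
      ((-W ^ 2) * (s * u - t ^ 2) - q * (q * u - t * r) + r * (q * t - s * r))) =
    (q * (x - r) - W ^ 2 * t) ^ 2 := by
  linear_combination ((x - r) ^ 2 + W ^ 2 * u) * h

end Gen

section Count

variable {R k : Type} [CommRing R] [Field k] [Finite R] [Finite k] (φ : R →+* k)

/-- The parametrisation of the pairs with `w ≠ 0`. -/
noncomputable def F1 (a b h : R) (d : R × R × (R × R)) : Matrix (Fin 3) (Fin 3) R × k :=
  (mk6 (-d.1 ^ 2) d.2.1 (-(a + (d.2.2.1 - d.2.1 ^ 2 * Ring.inverse d.1 ^ 2)) * h)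
    (d.2.2.1 - d.2.1 ^ 2 * Ring.inverse d.1 ^ 2)
    ((d.2.1 * (d.2.2.1 - (-(a + (d.2.2.1 - d.2.1 ^ 2 * Ring.inverse d.1 ^ 2)) * h)) -
      d.1 * d.2.2.2) * Ring.inverse d.1 ^ 2)
    ((b - 2 * (-(a + (d.2.2.1 - d.2.1 ^ 2 * Ring.inverse d.1 ^ 2)) * h) *
      (d.2.2.1 - d.2.1 ^ 2 * Ring.inverse d.1 ^ 2) +
      2 * ((d.2.1 * (d.2.2.1 - (-(a + (d.2.2.1 - d.2.1 ^ 2 * Ring.inverse d.1 ^ 2)) * h)) -
      d.1 * d.2.2.2) * Ring.inverse d.1 ^ 2) * d.2.1 -
      (-(a + (d.2.2.1 - d.2.1 ^ 2 * Ring.inverse d.1 ^ 2)) * h) ^ 2) *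
      Ring.inverse d.1 ^ 2), φ d.1)

theorem card_ker (hs : Function.Surjective φ) :
    Nat.card R = Nat.card k * {x : R | φ x = 0}.ncard := by
  have h1 := AddSubgroup.card_eq_card_quotient_mul_card_addSubgroup φ.toAddMonoidHom.ker
  have h2 : Nat.card (R ⧸ φ.toAddMonoidHom.ker) = Nat.card k :=
    Nat.card_congr (QuotientAddGroup.quotientKerEquivOfSurjective φ.toAddMonoidHom hs).toEquiv
  rw [h1, h2]
  rfl

theorem unit_iff (hu : ∀ x : R, IsUnit x ∨ φ x = 0) (x : R) : IsUnit x ↔ φ x ≠ 0 := by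
  constructor
  · intro h h0
    have := h.map φ
    rw [h0] at this
    exact not_isUnit_zero this
  · intro h
    exact (hu x).resolve_right h

theorem card_units (hu : ∀ x : R, IsUnit x ∨ φ x = 0) :
    {x : R | IsUnit x}.ncard + {x : R | φ x = 0}.ncard = Nat.card R := by
  have h : {x : R | IsUnit x} = {x : R | φ x = 0}ᶜ := by
    ext x
    simp [unit_iff φ hu]
  rw [h, add_comm, Set.ncard_add_ncard_compl]

/-- Square roots lift. -/
theorem sqrt_lift (hs : Function.Surjective φ) (hu : ∀ x : R, IsUnit x ∨ φ x = 0)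
    (h2 : IsUnit (2 : R)) (b0 : R) (w : k) (hw : w ≠ 0) (h : w ^ 2 = -φ b0) :
    ∃ W : R, IsUnit W ∧ φ W = w ∧ W ^ 2 = -b0 := by
  have hinj : Set.InjOn (fun W : R => ((-W ^ 2 : R), φ W)) {x : R | IsUnit x} := by
    intro W hW W' hW' hh
    simp only [Prod.mk.injEq, neg_inj] at hh
    obtain ⟨h3, h4⟩ := hh
    have h5 : IsUnit (W + W') := by
      rw [unit_iff φ hu, map_add, ← h4, ← two_mul]
      refine mul_ne_zero ?_ ((unit_iff φ hu W).1 hW)
      have h8 := (unit_iff φ hu 2).1 h2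
      rwa [map_ofNat] at h8
    have h6 : (W + W') * (W - W') = 0 := by linear_combination h3
    have h7 := (h5.mul_right_eq_zero).1 h6
    exact sub_eq_zero.1 h7
  have hsub : (fun W : R => ((-W ^ 2 : R), φ W)) '' {x : R | IsUnit x} ⊆
      {p : R × k | p.2 ≠ 0 ∧ p.2 ^ 2 = -φ p.1} := by
    rintro _ ⟨W, hW, rfl⟩
    refine ⟨(unit_iff φ hu W).1 hW, ?_⟩
    simp
  have hcard : {p : R × k | p.2 ≠ 0 ∧ p.2 ^ 2 = -φ p.1}.ncard ≤ {x : R | IsUnit x}.ncard := by
    obtain ⟨ψ, hψ⟩ := hs.hasRightInverse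
    have hinj2 : Set.InjOn (fun p : R × k => (p.1 + ψ p.2 ^ 2, p.2))
        {p : R × k | p.2 ≠ 0 ∧ p.2 ^ 2 = -φ p.1} := by
      rintro ⟨p, q⟩ _ ⟨p', q'⟩ _ hh
      simp only [Prod.mk.injEq] at hh
      obtain ⟨h3, h4⟩ := hh
      subst h4
      simp only [Prod.mk.injEq, and_true]
      exact add_right_cancel h3
    have hsub2 : (fun p : R × k => (p.1 + ψ p.2 ^ 2, p.2)) ''
        {p : R × k | p.2 ≠ 0 ∧ p.2 ^ 2 = -φ p.1} ⊆ {x : R | φ x = 0} ×ˢ {y : k | y ≠ 0} := by
      rintro _ ⟨⟨p, q⟩, ⟨h3, h4⟩, rfl⟩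
      refine ⟨?_, h3⟩
      simp only [Set.mem_ofPred_eq, map_add, map_pow, hψ q]
      simp only at h4
      rw [h4]
      ring
    have h3 := Set.ncard_le_ncard hsub2 (Set.toFinite _)
    rw [hinj2.ncard_image, Set.ncard_prod] at h3
    refine h3.trans ?_
    have h4 : {y : k | y ≠ 0}.ncard + 1 = Nat.card k := by
      have h5 : {y : k | y ≠ 0} = {(0 : k)}ᶜ := by
        ext y
        simp
      rw [h5, add_comm, ← Set.ncard_singleton (0 : k), Set.ncard_add_ncard_compl]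
    have h5 := card_units φ hu
    have h6 := card_ker φ hs
    rw [h6, ← h4] at h5
    nlinarith
  have hEq : (fun W : R => ((-W ^ 2 : R), φ W)) '' {x : R | IsUnit x} =
      {p : R × k | p.2 ≠ 0 ∧ p.2 ^ 2 = -φ p.1} := by
    apply Set.eq_of_subset_of_ncard_le hsub _ (Set.toFinite _)
    rwa [hinj.ncard_image]
  have hmem : (b0, w) ∈ {p : R × k | p.2 ≠ 0 ∧ p.2 ^ 2 = -φ p.1} := ⟨hw, h⟩
  rw [← hEq] at hmem
  obtain ⟨W, hW, hh⟩ := hmem
  simp only [Prod.mk.injEq] at hh
  refine ⟨W, hW, hh.2, ?_⟩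
  rw [← hh.1]
  ring

theorem card_T1 (hs : Function.Surjective φ) (hu : ∀ x : R, IsUnit x ∨ φ x = 0)
    (h2 : IsUnit (2 : R)) (a b c : R) :
    {p : Matrix (Fin 3) (Fin 3) R × k | p.1 ∈ Fb a b c ∧ p.2 ≠ 0 ∧
      p.2 ^ 2 = -φ (p.1 0 0)}.ncard = {x : R | IsUnit x}.ncard * (Nat.card R * nE R a b c) := by
  obtain ⟨h, hh⟩ := isUnit_iff_exists_inv.1 h2
  have hinj : Set.InjOn (F1 φ a b h) ({x : R | IsUnit x} ×ˢ (Set.univ ×ˢ
      {p : R × R | p.2 ^ 2 = p.1 ^ 3 + a * p.1 ^ 2 + b * p.1 + c})) := by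
    rintro ⟨W, β, x, y⟩ hd ⟨W', β', x', y'⟩ hd' he
    have hW : IsUnit W := hd.1
    have hW' : IsUnit W' := hd'.1
    have e1 : φ W = φ W' := congrArg Prod.snd he
    have e2 := congrArg Prod.fst he
    have e00 : -W ^ 2 = -W' ^ 2 := congrFun (congrFun e2 0) 0
    have e01 : β = β' := congrFun (congrFun e2 0) 1
    have hWW : W = W' := by
      have h5 : IsUnit (W + W') := by
        rw [unit_iff φ hu, map_add, ← e1, ← two_mul]
        refine mul_ne_zero ?_ ((unit_iff φ hu W).1 hW)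
        have h8 := (unit_iff φ hu 2).1 h2
        rwa [map_ofNat] at h8
      have h6 : (W + W') * (W - W') = 0 := by linear_combination -e00
      exact sub_eq_zero.1 ((h5.mul_right_eq_zero).1 h6)
    subst hWW
    subst e01
    have e11 : x - β ^ 2 * Ring.inverse W ^ 2 = x' - β ^ 2 * Ring.inverse W ^ 2 :=
      congrFun (congrFun e2 1) 1
    have hxx : x = x' := sub_left_injective e11
    subst hxx
    have e12 : (β * (x - (-(a + (x - β ^ 2 * Ring.inverse W ^ 2)) * h)) - W * y) *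
        Ring.inverse W ^ 2 = (β * (x - (-(a + (x - β ^ 2 * Ring.inverse W ^ 2)) * h)) - W * y') *
        Ring.inverse W ^ 2 := congrFun (congrFun e2 1) 2
    have hV := Ring.mul_inverse_cancel W hW
    have hyy : y = y' := by
      linear_combination (-W) * e12 + (y - y') * (-1 - W * Ring.inverse W) * hV
    subst hyy
    rfl
  have hset : {p : Matrix (Fin 3) (Fin 3) R × k | p.1 ∈ Fb a b c ∧ p.2 ≠ 0 ∧
      p.2 ^ 2 = -φ (p.1 0 0)} = F1 φ a b h '' ({x : R | IsUnit x} ×ˢ (Set.univ ×ˢ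
      {p : R × R | p.2 ^ 2 = p.1 ^ 3 + a * p.1 ^ 2 + b * p.1 + c})) := by
    ext ⟨B, w⟩
    constructor
    · rintro ⟨hB, hw, hw2⟩
      simp only at hB hw hw2
      obtain ⟨W, hW, hWw, hW2⟩ := sqrt_lift φ hs hu h2 (B 0 0) w hw hw2
      have hV := Ring.mul_inverse_cancel W hW
      obtain ⟨ha, hb, hc⟩ := mem_Fb hB
      have hB0 : B 0 0 = -W ^ 2 := by rw [hW2]; ring
      refine ⟨(W, B 0 1, B 1 1 + B 0 1 ^ 2 * Ring.inverse W ^ 2,
        (B 0 1 * (B 1 1 + B 0 1 ^ 2 * Ring.inverse W ^ 2 - B 0 2) - W ^ 2 * B 1 2) *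
          Ring.inverse W), ⟨hW, Set.mem_univ _, ?_⟩, ?_⟩
      · simp only [Set.mem_ofPred_eq]
        set V := Ring.inverse W with hVdef
        have hk := key W (B 0 1) (B 0 2) (B 1 1) (B 1 2) (B 2 2)
          (B 1 1 + B 0 1 ^ 2 * V ^ 2) (by
            linear_combination (B 0 1 ^ 2 * (W * V + 1)) * hV)
        rw [← hB0, ← ha, ← hb, ← hc] at hk
        have hW2u : IsUnit (W ^ 2) := hW.pow 2
        apply hW2u.mul_left_cancel
        linear_combination (-1 : R) * hk + (B 0 1 * (B 1 1 + B 0 1 ^ 2 * V ^ 2 - B 0 2) -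
          W ^ 2 * B 1 2) ^ 2 * (W * V + 1) * hV
      · simp only [F1, Prod.mk.injEq]
        refine ⟨?_, hWw⟩
        set V := Ring.inverse W with hVdef
        have h11 : B 1 1 + B 0 1 ^ 2 * V ^ 2 - B 0 1 ^ 2 * V ^ 2 = B 1 1 := by ring
        rw [h11]
        have h02 : -(a + B 1 1) * h = B 0 2 := by
          rw [ha]
          linear_combination (B 0 2) * hh
        rw [h02]
        have h12 : (B 0 1 * (B 1 1 + B 0 1 ^ 2 * V ^ 2 - B 0 2) -
            W * ((B 0 1 * (B 1 1 + B 0 1 ^ 2 * V ^ 2 - B 0 2) - W ^ 2 * B 1 2) * V)) * V ^ 2 =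
            B 1 2 := by
          linear_combination (-(B 0 1 * (B 1 1 + B 0 1 ^ 2 * V ^ 2 - B 0 2) * V ^ 2) +
            B 1 2 * ((W * V) ^ 2 + W * V + 1)) * hV
        rw [h12]
        have h22 : (b - 2 * B 0 2 * B 1 1 + 2 * B 1 2 * B 0 1 - B 0 2 ^ 2) * V ^ 2 = B 2 2 := by
          have : b - 2 * B 0 2 * B 1 1 + 2 * B 1 2 * B 0 1 - B 0 2 ^ 2 = B 2 2 * W ^ 2 := by
            rw [hb, hB0]
            ring
          rw [this]
          linear_combination (B 2 2 * (W * V + 1)) * hV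
        rw [h22, ← hB0]
        exact (eq_mk6 hB.1).symm
    · rintro ⟨⟨W, β, x, y⟩, ⟨hW, -, hE⟩, he⟩
      simp only [Set.mem_ofPred_eq] at hW hE
      have hV := Ring.mul_inverse_cancel W hW
      rw [← he]
      refine ⟨?_, (unit_iff φ hu W).1 hW, ?_⟩
      · simp only [F1]
        set V := Ring.inverse W with hVdef
        set s := x - β ^ 2 * V ^ 2 with hsdef
        set r := -(a + s) * h with hrdef
        set t := (β * (x - r) - W * y) * V ^ 2 with htdef
        set u := (b - 2 * r * s + 2 * t * β - r ^ 2) * V ^ 2 with hudef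
        have h1 : a = -(2 * r + s) := by
          rw [hrdef]
          linear_combination (-(a + s)) * hh
        have h3 : b = 2 * r * s - 2 * t * β + r ^ 2 - u * (-W ^ 2) := by
          rw [hudef]
          linear_combination (-(b - 2 * r * s + 2 * t * β - r ^ 2) * (W * V + 1)) * hV
        refine mk6_mem h1 h3 ?_
        have hk := key W β r s t u x (by
          rw [hsdef]
          linear_combination (β ^ 2 * (W * V + 1)) * hV)
        rw [← h1, ← h3] at hk
        have hWt : W ^ 2 * t = β * (x - r) - W * y := by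
          rw [htdef]
          linear_combination ((β * (x - r) - W * y) * (W * V + 1)) * hV
        rw [hWt] at hk
        have hW2u : IsUnit (W ^ 2) := hW.pow 2
        apply hW2u.mul_left_cancel
        linear_combination (-1 : R) * hk - W ^ 2 * hE
      · simp [F1, mk6]
  rw [hset, hinj.ncard_image, Set.ncard_prod, Set.ncard_prod, Set.ncard_univ]
  rfl

theorem card_T0 (hu : ∀ x : R, IsUnit x ∨ φ x = 0)
    (h2 : IsUnit (2 : R)) (a b c : R) :
    {B : Matrix (Fin 3) (Fin 3) R | B ∈ Fb a b c ∧ φ (B 0 0) = 0 ∧ IsUnit (B 0 1)}.ncard =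
      {x : R | φ x = 0}.ncard * ({x : R | IsUnit x}.ncard * Nat.card R) := by
  obtain ⟨h, hh⟩ := isUnit_iff_exists_inv.1 h2
  -- the determinant as a function of the last entry
  have hdet : ∀ p q s : R, φ p = 0 → IsUnit q → ∀ z z' : R,
      p * (s * z - ((2 * (-(a + s) * h) * s + (-(a + s) * h) ^ 2 - z * p - b) * h *
        Ring.inverse q) ^ 2) -
      q * (q * z - ((2 * (-(a + s) * h) * s + (-(a + s) * h) ^ 2 - z * p - b) * h *
        Ring.inverse q) * (-(a + s) * h)) +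
      (-(a + s) * h) * (q * ((2 * (-(a + s) * h) * s + (-(a + s) * h) ^ 2 - z * p - b) * h *
        Ring.inverse q) - s * (-(a + s) * h)) =
      p * (s * z' - ((2 * (-(a + s) * h) * s + (-(a + s) * h) ^ 2 - z' * p - b) * h *
        Ring.inverse q) ^ 2) -
      q * (q * z' - ((2 * (-(a + s) * h) * s + (-(a + s) * h) ^ 2 - z' * p - b) * h *
        Ring.inverse q) * (-(a + s) * h)) +
      (-(a + s) * h) * (q * ((2 * (-(a + s) * h) * s + (-(a + s) * h) ^ 2 - z' * p - b) * h *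
        Ring.inverse q) - s * (-(a + s) * h)) → z = z' := by
    intro p q s hp hq z z' he
    set V := Ring.inverse q with hV
    set r := -(a + s) * h with hr
    set A := 2 * r * s + r ^ 2 - b with hA
    have hun : IsUnit (-q ^ 2 + p * (s + p * h * V * ((A - z * p) * h * V +
        (A - z' * p) * h * V) - 2 * q * r * h * V)) := by
      rw [unit_iff φ hu]
      simp only [map_add, map_mul, hp, zero_mul, add_zero, map_neg, map_pow, neg_ne_zero]
      exact pow_ne_zero 2 ((unit_iff φ hu q).1 hq)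
    have hz : (-q ^ 2 + p * (s + p * h * V * ((A - z * p) * h * V +
        (A - z' * p) * h * V) - 2 * q * r * h * V)) * (z - z') = 0 := by
      linear_combination he
    exact sub_eq_zero.1 ((hun.mul_right_eq_zero).1 hz)
  have hset : (fun B : Matrix (Fin 3) (Fin 3) R => (B 0 0, B 0 1, B 1 1)) ''
      {B : Matrix (Fin 3) (Fin 3) R | B ∈ Fb a b c ∧ φ (B 0 0) = 0 ∧ IsUnit (B 0 1)} =
      {x : R | φ x = 0} ×ˢ ({x : R | IsUnit x} ×ˢ Set.univ) := by
    ext ⟨p, q, s⟩
    constructor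
    · rintro ⟨B, ⟨-, hp, hq⟩, he⟩
      simp only [Prod.mk.injEq] at he
      obtain ⟨e1, e2, e3⟩ := he
      refine ⟨?_, ?_, Set.mem_univ _⟩
      · rw [← e1]
        exact hp
      · rw [← e2]
        exact hq
    · rintro ⟨hp, hq, -⟩
      simp only [Set.mem_ofPred_eq] at hp hq
      have hsurj := Finite.injective_iff_surjective.1 (fun z z' => hdet p q s hp hq z z')
      obtain ⟨z, hz⟩ := hsurj c
      have hV := Ring.mul_inverse_cancel q hq
      set V := Ring.inverse q with hVd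
      set r := -(a + s) * h with hr
      refine ⟨mk6 p q r s ((2 * r * s + r ^ 2 - z * p - b) * h * V) z,
        ⟨mk6_mem ?_ ?_ hz.symm, hp, hq⟩, rfl⟩
      · rw [hr]
        linear_combination (-(a + s)) * hh
      · linear_combination ((2 * r * s + r ^ 2 - z * p - b) * (q * V)) * hh +
          (2 * r * s + r ^ 2 - z * p - b) * hV
  have hinj : Set.InjOn (fun B : Matrix (Fin 3) (Fin 3) R => (B 0 0, B 0 1, B 1 1))
      {B : Matrix (Fin 3) (Fin 3) R | B ∈ Fb a b c ∧ φ (B 0 0) = 0 ∧ IsUnit (B 0 1)} := by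
    rintro B ⟨hB, hp, hq⟩ B' ⟨hB', hp', hq'⟩ he
    simp only [Prod.mk.injEq] at he
    obtain ⟨e1, e2, e3⟩ := he
    obtain ⟨ha, hb, hc⟩ := mem_Fb hB
    obtain ⟨ha', hb', hc'⟩ := mem_Fb hB'
    have hV := Ring.mul_inverse_cancel _ hq
    have hr : B 0 2 = -(a + B 1 1) * h := by
      linear_combination (-(B 0 2)) * hh + h * ha
    have hr' : B' 0 2 = -(a + B 1 1) * h := by
      linear_combination (-(B' 0 2)) * hh + h * ha' + h * e3
    rw [← e1, ← e2, ← e3] at hb' hc'
    rw [hr] at hb hc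
    rw [hr'] at hb' hc'
    set V := Ring.inverse (B 0 1) with hVd
    set r := -(a + B 1 1) * h with hrd
    have ht : B 1 2 = (2 * r * B 1 1 + r ^ 2 - B 2 2 * B 0 0 - b) * h * V := by
      linear_combination (-(B 1 2)) * hV - (B 1 2 * B 0 1 * V) * hh + h * V * hb
    have ht' : B' 1 2 = (2 * r * B 1 1 + r ^ 2 - B' 2 2 * B 0 0 - b) * h * V := by
      linear_combination (-(B' 1 2)) * hV - (B' 1 2 * B 0 1 * V) * hh + h * V * hb'
    have hz : B 2 2 = B' 2 2 := by
      apply hdet (B 0 0) (B 0 1) (B 1 1) hp hq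
      rw [← hVd, ← hrd, ← ht, ← ht']
      linear_combination hc' - hc
    have ht2 : B 1 2 = B' 1 2 := by rw [ht, ht', hz]
    rw [eq_mk6 hB.1, eq_mk6 hB'.1, e1, e2, e3, hr, hr', ht2, hz]
  rw [← hinj.ncard_image, hset, Set.ncard_prod, Set.ncard_prod, Set.ncard_univ]

/-- The first basis vector. -/
def e0 : Fin 3 → k := ![1, 0, 0]

theorem e0_mem (B : Matrix (Fin 3) (Fin 3) k) (w : k) :
    ((e0, w) ∈ SmF B) ↔ (w ^ 2 = -B 0 0 ∧ ¬ (w = 0 ∧ B 0 0 = 0 ∧ B 1 0 = 0)) := by
  have h1 : bil (AA k) e0 e0 = 0 := by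
    simp [bil, AA, e0, Matrix.mulVec, dotProduct, Fin.sum_univ_three]
  have h2 : bil B e0 e0 = B 0 0 := by
    simp [bil, e0, Matrix.mulVec, dotProduct, Fin.sum_univ_three]
  have h3 : (e0 : Fin 3 → k) ≠ 0 := by
    intro h
    have := congrFun h 0
    simp [e0] at this
  have h4 : (∃ μ : k, B *ᵥ e0 = μ • (AA k *ᵥ e0)) ↔ (B 0 0 = 0 ∧ B 1 0 = 0) := by
    constructor
    · rintro ⟨μ, h⟩
      have ha := congrFun h 0
      have hb := congrFun h 1
      simp [AA, e0, Matrix.mulVec, dotProduct, Fin.sum_univ_three] at ha hb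
      exact ⟨ha, hb⟩
    · rintro ⟨ha, hb⟩
      refine ⟨B 2 0, ?_⟩
      ext i
      fin_cases i <;> simp [AA, e0, Matrix.mulVec, dotProduct, Fin.sum_univ_three, ha, hb]
  constructor
  · rintro ⟨-, -, h5, h6⟩
    simp only at h5 h6
    rw [h2] at h5
    rw [h4] at h6
    exact ⟨eq_neg_of_add_eq_zero_left h5, h6⟩
  · rintro ⟨h5, h6⟩
    refine ⟨h3, h1, ?_, ?_⟩
    · simp only
      rw [h2, h5]
      ring
    · simp only
      rw [h4]
      exact h6

theorem card_E0 (hs : Function.Surjective φ) (hu : ∀ x : R, IsUnit x ∨ φ x = 0)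
    (h2 : IsUnit (2 : R)) (a b c : R) :
    {p : Matrix (Fin 3) (Fin 3) R × k | p.1 ∈ Fb a b c ∧ (e0, p.2) ∈ SmF (p.1.map φ)}.ncard =
      {x : R | IsUnit x}.ncard * (Nat.card R * nE R a b c) +
      {x : R | φ x = 0}.ncard * ({x : R | IsUnit x}.ncard * Nat.card R) := by
  rw [← card_T1 φ hs hu h2, ← card_T0 φ hu h2 a b c]
  have h3 : {B : Matrix (Fin 3) (Fin 3) R | B ∈ Fb a b c ∧ φ (B 0 0) = 0 ∧
      IsUnit (B 0 1)}.ncard = ({B : Matrix (Fin 3) (Fin 3) R | B ∈ Fb a b c ∧ φ (B 0 0) = 0 ∧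
      IsUnit (B 0 1)} ×ˢ {(0 : k)}).ncard := by
    rw [Set.ncard_prod, Set.ncard_singleton, mul_one]
  rw [h3, ← Set.ncard_union_eq ?_ (Set.toFinite _) (Set.toFinite _)]
  · apply congrArg
    ext ⟨B, w⟩
    simp only [Set.mem_ofPred_eq, Set.mem_union, Set.mem_prod, Set.mem_singleton_iff]
    rw [e0_mem]
    constructor
    · rintro ⟨hB, h4, h5⟩
      have hsym := sym3 hB.1
      simp only [Matrix.map_apply] at h4 h5
      by_cases hw : w = 0
      · right
        subst hw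
        have h6 : φ (B 0 0) = 0 := by
          have : φ (B 0 0) = -(0 ^ 2 : k) := by rw [h4]; ring
          rw [this]
          ring
        refine ⟨⟨hB, h6, ?_⟩, rfl⟩
        rw [unit_iff φ hu]
        intro h7
        apply h5
        refine ⟨rfl, h6, ?_⟩
        rw [hsym.1]
        exact h7
      · left
        exact ⟨hB, hw, h4⟩
    · rintro (⟨hB, hw, h4⟩ | ⟨⟨hB, h4, h5⟩, hw⟩)
      · refine ⟨hB, h4, ?_⟩
        rintro ⟨h6, -⟩
        exact hw h6
      · have hsym := sym3 hB.1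
        subst hw
        refine ⟨hB, ?_, ?_⟩
        · simp [Matrix.map_apply, h4]
        · rintro ⟨-, -, h6⟩
          rw [Matrix.map_apply, hsym.1] at h6
          exact ((unit_iff φ hu _).1 h5) h6
  · rw [Set.disjoint_left]
    rintro ⟨B, w⟩ h4 h5
    exact h4.2.1 h5.2

end Count

section Equi

variable {R : Type} [CommRing R]

theorem AA_sq : AA R * AA R = 1 := by
  ext i j
  fin_cases i <;> fin_cases j <;> simp [AA, Matrix.mul_apply, Fin.sum_univ_three]

theorem AA_T : (AA R)ᵀ = AA R := by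
  ext i j
  fin_cases i <;> fin_cases j <;> rfl

theorem inv_left {g : Matrix (Fin 3) (Fin 3) R} (hg : gᵀ * AA R * g = AA R) :
    (AA R * gᵀ * AA R) * g = 1 := by
  have : (AA R * gᵀ * AA R) * g = AA R * (gᵀ * AA R * g) := by
    simp only [Matrix.mul_assoc]
  rw [this, hg, AA_sq]

theorem inv_right {g : Matrix (Fin 3) (Fin 3) R} (hg : gᵀ * AA R * g = AA R) :
    g * (AA R * gᵀ * AA R) = 1 := mul_eq_one_comm.1 (inv_left hg)

theorem AA_mul' (B : Matrix (Fin 3) (Fin 3) R) : AA R * B =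
    !![B 2 0, B 2 1, B 2 2; B 1 0, B 1 1, B 1 2; B 0 0, B 0 1, B 0 2] := by
  ext i j
  fin_cases i <;> fin_cases j <;>
    simp [AA, Matrix.vecMul, dotProduct, Fin.sum_univ_three]

theorem tr_ia {B : Matrix (Fin 3) (Fin 3) R} (hB : Bᵀ = B) : ia B = -(AA R * B).trace := by
  obtain ⟨h1, h2, h3⟩ := sym3 hB
  rw [AA_mul']
  simp [ia, Matrix.trace, Fin.sum_univ_three, h2]
  ring

theorem tr_ib {B : Matrix (Fin 3) (Fin 3) R} (hB : Bᵀ = B) :
    2 * ib B = (AA R * B).trace ^ 2 - (AA R * B * (AA R * B)).trace := by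
  obtain ⟨h1, h2, h3⟩ := sym3 hB
  rw [AA_mul']
  simp [ib, Matrix.trace, Fin.sum_univ_three, h1, h2, h3]
  ring

theorem conj {g : Matrix (Fin 3) (Fin 3) R}
    (B : Matrix (Fin 3) (Fin 3) R) :
    AA R * (gᵀ * B * g) = (AA R * gᵀ * AA R) * (AA R * B) * g := by
  have : (AA R * gᵀ * AA R) * (AA R * B) * g = AA R * gᵀ * (AA R * AA R) * B * g := by
    simp only [Matrix.mul_assoc]
  rw [this, AA_sq, Matrix.mul_one]
  simp only [Matrix.mul_assoc]

theorem inv_Fb {g : Matrix (Fin 3) (Fin 3) R} (hg : gᵀ * AA R * g = AA R) (h2 : IsUnit (2 : R))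
    {a b c : R} {B : Matrix (Fin 3) (Fin 3) R} (hB : B ∈ Fb a b c) : gᵀ * B * g ∈ Fb a b c := by
  obtain ⟨hs, ha, hb, hc⟩ := hB
  have hs' : (gᵀ * B * g)ᵀ = gᵀ * B * g := by
    rw [Matrix.transpose_mul, Matrix.transpose_mul, Matrix.transpose_transpose, hs,
      Matrix.mul_assoc]
  have ht : (AA R * (gᵀ * B * g)).trace = (AA R * B).trace := by
    rw [conj, Matrix.trace_mul_comm, ← Matrix.mul_assoc, inv_right hg, Matrix.one_mul]
  have ht2 : (AA R * (gᵀ * B * g) * (AA R * (gᵀ * B * g))).trace =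
      (AA R * B * (AA R * B)).trace := by
    rw [conj]
    have : (AA R * gᵀ * AA R) * (AA R * B) * g * ((AA R * gᵀ * AA R) * (AA R * B) * g) =
        (AA R * gᵀ * AA R) * ((AA R * B) * (g * (AA R * gᵀ * AA R)) * (AA R * B)) * g := by
      simp only [Matrix.mul_assoc]
    rw [this, inv_right hg, Matrix.mul_one, Matrix.trace_mul_comm, ← Matrix.mul_assoc,
      inv_right hg, Matrix.one_mul]
  refine ⟨hs', ?_, ?_, ?_⟩
  · rw [tr_ia hs', ht, ← tr_ia hs, ha]
  · apply h2.mul_left_cancel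
    rw [tr_ib hs', ht, ht2, ← tr_ib hs, hb]
  · rw [← hc]
    simp only [ic, Matrix.det_mul, Matrix.det_transpose]
    have h3 : g.det * g.det = 1 := by
      have h4 := congrArg Matrix.det hg
      have h5 : (AA R).det = -1 := by
        simp [AA, det_fin_three]
      simp only [Matrix.det_mul, Matrix.det_transpose, h5] at h4
      linear_combination -h4
    linear_combination B.det * h3

theorem conj2 (g g' B : Matrix (Fin 3) (Fin 3) R) :
    g'ᵀ * (gᵀ * B * g) * g' = (g * g')ᵀ * B * (g * g') := by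
  rw [Matrix.transpose_mul]
  simp only [Matrix.mul_assoc]

theorem bil_conj (g B : Matrix (Fin 3) (Fin 3) R) (u v : Fin 3 → R) :
    bil (gᵀ * B * g) u v = bil B (g *ᵥ u) (g *ᵥ v) := by
  unfold bil
  rw [← Matrix.mulVec_mulVec, ← Matrix.mulVec_mulVec, Matrix.dotProduct_mulVec,
    Matrix.vecMul_transpose]

end Equi

section Trans

variable {k : Type} [Field k]

theorem smF_conj {g : Matrix (Fin 3) (Fin 3) k} (hg : gᵀ * AA k * g = AA k)
    (B : Matrix (Fin 3) (Fin 3) k) (v : Fin 3 → k) (w : k) :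
    (v, w) ∈ SmF (gᵀ * B * g) ↔ (g *ᵥ v, w) ∈ SmF B := by
  have hl := inv_left hg
  have h0 : v ≠ 0 ↔ g *ᵥ v ≠ 0 := by
    rw [not_iff_not]
    constructor
    · rintro rfl
      simp
    · intro h
      have : (AA k * gᵀ * AA k) *ᵥ (g *ᵥ v) = v := by
        rw [Matrix.mulVec_mulVec, hl, Matrix.one_mulVec]
      rw [← this, h]
      simp
  have h1 : bil (AA k) v v = bil (AA k) (g *ᵥ v) (g *ᵥ v) := by
    rw [← bil_conj, hg]
  have hgT : gᵀ * (AA k * g * AA k) = 1 := by
    have : gᵀ * (AA k * g * AA k) = (gᵀ * AA k * g) * AA k := by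
      simp only [Matrix.mul_assoc]
    rw [this, hg, AA_sq]
  have hgT' : (AA k * g * AA k) * gᵀ = 1 := mul_eq_one_comm.1 hgT
  have h2 : (∃ μ : k, (gᵀ * B * g) *ᵥ v = μ • (AA k *ᵥ v)) ↔
      ∃ μ : k, B *ᵥ (g *ᵥ v) = μ • (AA k *ᵥ (g *ᵥ v)) := by
    constructor
    · rintro ⟨μ, h⟩
      refine ⟨μ, ?_⟩
      have h3 : gᵀ *ᵥ (B *ᵥ (g *ᵥ v)) = gᵀ *ᵥ (μ • (AA k *ᵥ (g *ᵥ v))) := by
        have h4 : AA k *ᵥ v = gᵀ *ᵥ (AA k *ᵥ (g *ᵥ v)) := by
          rw [Matrix.mulVec_mulVec, Matrix.mulVec_mulVec, hg]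
        rw [Matrix.mulVec_smul, ← h4, ← h, Matrix.mulVec_mulVec, Matrix.mulVec_mulVec,
          Matrix.mul_assoc]
      have h5 := congrArg (fun x => (AA k * g * AA k) *ᵥ x) h3
      simp only [Matrix.mulVec_mulVec _ (AA k * g * AA k)] at h5
      rw [hgT', Matrix.one_mulVec, Matrix.one_mulVec] at h5
      exact h5
    · rintro ⟨μ, h⟩
      refine ⟨μ, ?_⟩
      have h4 : AA k *ᵥ v = gᵀ *ᵥ (AA k *ᵥ (g *ᵥ v)) := by
        rw [Matrix.mulVec_mulVec, Matrix.mulVec_mulVec, hg]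
      rw [← Matrix.mulVec_mulVec, ← Matrix.mulVec_mulVec, h, h4, Matrix.mulVec_smul]
  simp only [SmF, Set.mem_ofPred_eq]
  rw [h2, bil_conj, ← h1, ← h0]

/-- Transitivity. -/
theorem trans {R : Type} [CommRing R] (φ : R →+* k) (hs : Function.Surjective φ)
    (hu : ∀ x : R, IsUnit x ∨ φ x = 0) (h2 : IsUnit (2 : R)) (z : Fin 3 → k) (hz : z ≠ 0)
    (hi : bil (AA k) z z = 0) : ∃ g : Matrix (Fin 3) (Fin 3) R, gᵀ * AA R * g = AA R ∧
      (g.map φ) *ᵥ e0 = z := by
  obtain ⟨h, hh⟩ := isUnit_iff_exists_inv.1 h2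
  have hh' : (2 : k) * φ h = 1 := by
    have := congrArg φ hh
    rwa [map_mul, map_ofNat, map_one] at this
  have hi' : 2 * z 0 * z 2 + z 1 ^ 2 = 0 := by
    simp [bil, AA, Matrix.mulVec, dotProduct, Fin.sum_univ_three] at hi
    linear_combination hi
  have hlift : ∀ t : k, t ≠ 0 → ∃ l l' : R, φ l = t ∧ l * l' = 1 := by
    intro t ht
    obtain ⟨l, hl⟩ := hs t
    have hlu : IsUnit l := (hu l).resolve_right (by rw [hl]; exact ht)
    obtain ⟨l', hl'⟩ := isUnit_iff_exists_inv.1 hlu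
    exact ⟨l, l', hl, hl'⟩
  by_cases h0 : z 0 = 0
  · have h1 : z 1 = 0 := by
      rw [h0] at hi'
      have : z 1 ^ 2 = 0 := by linear_combination hi'
      exact pow_eq_zero_iff (two_ne_zero) |>.1 this
    have h3 : z 2 ≠ 0 := by
      intro h3
      apply hz
      ext i
      fin_cases i
      · exact h0
      · exact h1
      · exact h3
    obtain ⟨l, l', hl, hll⟩ := hlift _ h3
    refine ⟨!![0, 0, l'; 0, 1, 0; l, 0, 0], ?_, ?_⟩
    · ext i j
      fin_cases i <;> fin_cases j <;>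
        simp [AA, Matrix.mul_apply, Fin.sum_univ_three]
      · linear_combination hll
      · linear_combination hll
    · ext i
      fin_cases i <;>
        simp [e0, Matrix.mulVec, dotProduct, Fin.sum_univ_three, h0, h1, hl]
  · obtain ⟨l, l', hl, hll⟩ := hlift _ h0
    obtain ⟨s, hs1⟩ := hs (z 1 / z 0)
    refine ⟨!![l, 0, 0; s * l, 1, 0; -(s ^ 2 * h * l), -s, l'], ?_, ?_⟩
    · ext i j
      fin_cases i <;> fin_cases j <;>
        simp [AA, Matrix.mul_apply, Fin.sum_univ_three]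
      · linear_combination (-(s ^ 2 * l ^ 2)) * hh
      · ring
      · linear_combination hll
      · linear_combination hll
    · ext i
      fin_cases i
      · simp [e0, Matrix.mulVec, dotProduct, Fin.sum_univ_three, hl]
      · simp [e0, Matrix.mulVec, dotProduct, Fin.sum_univ_three, hl, hs1]
        field_simp
      · simp [e0, Matrix.mulVec, dotProduct, Fin.sum_univ_three, hl, hs1]
        field_simp
        linear_combination (-(φ h)) * hi' + (z 0 * z 2) * hh'

/-- The number of isotropic vectors. -/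
theorem card_iso [Finite k] (h2 : (2 : k) ≠ 0) :
    {z : Fin 3 → k | z ≠ 0 ∧ bil (AA k) z z = 0}.ncard + 1 = Nat.card k ^ 2 := by
  classical
  have hbil : ∀ z : Fin 3 → k, bil (AA k) z z = 2 * z 0 * z 2 + z 1 ^ 2 := by
    intro z
    simp [bil, AA, Matrix.mulVec, dotProduct, Fin.sum_univ_three]
    ring
  let G : k × k → (Fin 3 → k) := fun p =>
    if p.1 = 0 then ![0, 0, p.2] else ![p.1, p.2, -p.2 ^ 2 / (2 * p.1)]
  have hinj : Set.InjOn G {p : k × k | p ≠ 0} := by
    rintro ⟨r, s⟩ _ ⟨r', s'⟩ _ he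
    by_cases hr : r = 0
    · by_cases hr' : r' = 0
      · simp only [G, hr, hr', if_true] at he
        have := congrFun he 2
        simp at this
        rw [hr, hr', this]
      · simp only [G, hr, hr', if_true, if_false] at he
        have := congrFun he 0
        simp at this
        exact absurd this.symm hr'
    · by_cases hr' : r' = 0
      · simp only [G, hr, hr', if_true, if_false] at he
        have := congrFun he 0
        simp at this
        exact absurd this hr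
      · simp only [G, hr, hr', if_false] at he
        have h3 := congrFun he 0
        have h4 := congrFun he 1
        simp at h3 h4
        rw [h3, h4]
  have himg : G '' {p : k × k | p ≠ 0} = {z : Fin 3 → k | z ≠ 0 ∧ bil (AA k) z z = 0} := by
    ext z
    constructor
    · rintro ⟨⟨r, s⟩, hp, rfl⟩
      by_cases hr : r = 0
      · have hs : s ≠ 0 := by
          rintro rfl
          apply hp
          rw [hr]
          rfl
        simp only [G, hr, if_true]
        refine ⟨?_, ?_⟩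
        · intro h
          have := congrFun h 2
          simp at this
          exact hs this
        · rw [hbil]
          simp
      · simp only [G, hr, if_false]
        refine ⟨?_, ?_⟩
        · intro h
          have := congrFun h 0
          simp at this
          exact hr this
        · rw [hbil]
          simp
          field_simp
          ring
    · rintro ⟨hz, hb⟩
      rw [hbil] at hb
      by_cases h0 : z 0 = 0
      · have h1 : z 1 = 0 := by
          rw [h0] at hb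
          have : z 1 ^ 2 = 0 := by linear_combination hb
          exact pow_eq_zero_iff (two_ne_zero) |>.1 this
        refine ⟨(0, z 2), ?_, ?_⟩
        · intro h
          apply hz
          have h3 : z 2 = 0 := congrArg Prod.snd h
          ext i
          fin_cases i
          · exact h0
          · exact h1
          · exact h3
        · simp only [G, if_true]
          ext i
          fin_cases i
          · exact h0.symm
          · exact h1.symm
          · rfl
      · refine ⟨(z 0, z 1), ?_, ?_⟩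
        · intro h
          exact h0 (congrArg Prod.fst h)
        · simp only [G, h0, if_false]
          ext i
          fin_cases i
          · rfl
          · rfl
          · simp
            field_simp
            linear_combination -hb
  rw [← himg, hinj.ncard_image]
  have h5 : {p : k × k | p ≠ 0} = {(0 : k × k)}ᶜ := by
    ext y
    simp
  rw [h5, add_comm, ← Set.ncard_singleton (0 : k × k), Set.ncard_add_ncard_compl, Nat.card_prod,
    sq]

end Trans

/-- Fibering. -/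
theorem fib {α β : Type} [Fintype α] [Finite β] (S : Set (α × β)) :
    S.ncard = ∑ a, {b : β | (a, b) ∈ S}.ncard := by
  have h1 : Nat.card S = Nat.card (Σ a : α, {b : β | (a, b) ∈ S}) := by
    apply Nat.card_congr
    exact
      { toFun := fun p => ⟨p.1.1, ⟨p.1.2, p.2⟩⟩
        invFun := fun p => ⟨(p.1, p.2.1), p.2.2⟩
        left_inv := fun p => rfl
        right_inv := fun p => rfl }
  rw [← Nat.card_coe_set_eq, h1, Nat.card_sigma]
  rfl

theorem sum_fib {α β : Type} [Fintype α] [Finite β] (s : Set α) (f : α → Set β) :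
    ∑ᶠ a ∈ s, ((f a).ncard : ℝ) = ({p : α × β | p.1 ∈ s ∧ p.2 ∈ f p.1}.ncard : ℝ) := by
  classical
  rw [fib, finsum_mem_def, finsum_eq_sum_of_fintype, Nat.cast_sum]
  apply Finset.sum_congr rfl
  intro a _
  by_cases ha : a ∈ s
  · rw [Set.indicator_of_mem ha]
    apply congrArg
    apply congrArg
    ext b
    simp [ha]
  · rw [Set.indicator_of_notMem ha]
    have : {b : β | (a, b) ∈ {p : α × β | p.1 ∈ s ∧ p.2 ∈ f p.1}} = ∅ := by
      ext b
      simp [ha]
    rw [this]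
    simp

end MAS

/-- MAS. -/
theorem mas_thm : MASStmt := by
  classical
  intro R k _ _ _ _ φ hs hu h2 a b c
  have : Fintype R := Fintype.ofFinite R
  have : Fintype k := Fintype.ofFinite k
  have hk2 : (2 : k) ≠ 0 := by
    have h8 := (MAS.unit_iff φ hu 2).1 h2
    rwa [map_ofNat] at h8
  rw [MAS.sum_fib]
  have hN : ∀ z : Fin 3 → k, z ≠ 0 → bil (AA k) z z = 0 →
      {p : Matrix (Fin 3) (Fin 3) R × k | p.1 ∈ Fb a b c ∧ (z, p.2) ∈ SmF (p.1.map φ)}.ncard =
      {p : Matrix (Fin 3) (Fin 3) R × k | p.1 ∈ Fb a b c ∧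
        (MAS.e0, p.2) ∈ SmF (p.1.map φ)}.ncard := by
    intro z hz hi
    obtain ⟨g, hg, hgz⟩ := MAS.trans φ hs hu h2 z hz hi
    have hgk : (g.map φ)ᵀ * AA k * (g.map φ) = AA k := by
      have := congrArg (fun M : Matrix (Fin 3) (Fin 3) R => M.map φ) hg
      simp only [Matrix.map_mul, Matrix.transpose_map] at this
      have hA : (AA R).map φ = AA k := by
        ext i j
        fin_cases i <;> fin_cases j <;> simp [AA]
      rwa [hA] at this
    have hmap : ∀ B : Matrix (Fin 3) (Fin 3) R, (gᵀ * B * g).map φ =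
        (g.map φ)ᵀ * B.map φ * (g.map φ) := by
      intro B
      simp only [Matrix.map_mul, Matrix.transpose_map]
    have hgi := MAS.inv_right hg
    have hgi' := MAS.inv_left hg
    set g' := AA R * gᵀ * AA R with hg'
    have hgg' : g'ᵀ * AA R * g' = AA R := by
      have h3 := MAS.conj2 g g' (AA R)
      rw [hg, hgi] at h3
      rw [h3]
      simp
    have hinj : Set.InjOn (fun p : Matrix (Fin 3) (Fin 3) R × k => (gᵀ * p.1 * g, p.2))
        {p : Matrix (Fin 3) (Fin 3) R × k | p.1 ∈ Fb a b c ∧ (z, p.2) ∈ SmF (p.1.map φ)} := by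
      rintro ⟨B, w⟩ _ ⟨B', w'⟩ _ he
      simp only [Prod.mk.injEq] at he
      obtain ⟨h3, h4⟩ := he
      have h5 : ∀ B : Matrix (Fin 3) (Fin 3) R, g'ᵀ * (gᵀ * B * g) * g' = B := by
        intro B
        rw [MAS.conj2, hgi]
        simp
      rw [← h5 B, ← h5 B', h3, h4]
    have himg : (fun p : Matrix (Fin 3) (Fin 3) R × k => (gᵀ * p.1 * g, p.2)) ''
        {p : Matrix (Fin 3) (Fin 3) R × k | p.1 ∈ Fb a b c ∧ (z, p.2) ∈ SmF (p.1.map φ)} =
        {p : Matrix (Fin 3) (Fin 3) R × k | p.1 ∈ Fb a b c ∧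
        (MAS.e0, p.2) ∈ SmF (p.1.map φ)} := by
      ext ⟨B, w⟩
      constructor
      · rintro ⟨⟨B', w'⟩, ⟨h3, h4⟩, he⟩
        simp only [Prod.mk.injEq] at he
        obtain ⟨rfl, rfl⟩ := he
        refine ⟨MAS.inv_Fb hg h2 h3, ?_⟩
        simp only
        rw [hmap, MAS.smF_conj hgk, hgz]
        exact h4
      · rintro ⟨h3, h4⟩
        have h5 : gᵀ * (g'ᵀ * B * g') * g = B := by
          rw [MAS.conj2, hgi']
          simp
        refine ⟨(g'ᵀ * B * g', w), ⟨MAS.inv_Fb hgg' h2 h3, ?_⟩, ?_⟩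
        · simp only at h4 ⊢
          rw [← hgz, ← MAS.smF_conj hgk, ← hmap, h5]
          exact h4
        · simp only [Prod.mk.injEq, and_true]
          exact h5
    rw [← himg, hinj.ncard_image]
  have hswap : {p : Matrix (Fin 3) (Fin 3) R × ((Fin 3 → k) × k) | p.1 ∈ Fb a b c ∧
      p.2 ∈ SmF (p.1.map φ)}.ncard = {q : (Fin 3 → k) × (Matrix (Fin 3) (Fin 3) R × k) |
      q.2.1 ∈ Fb a b c ∧ (q.1, q.2.2) ∈ SmF (q.2.1.map φ)}.ncard := by
    rw [← Nat.card_coe_set_eq, ← Nat.card_coe_set_eq]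
    apply Nat.card_congr
    exact
      { toFun := fun p => ⟨(p.1.2.1, (p.1.1, p.1.2.2)), p.2⟩
        invFun := fun p => ⟨(p.1.2.1, (p.1.1, p.1.2.2)), p.2⟩
        left_inv := fun p => rfl
        right_inv := fun p => rfl }
  have hsum : {q : (Fin 3 → k) × (Matrix (Fin 3) (Fin 3) R × k) |
      q.2.1 ∈ Fb a b c ∧ (q.1, q.2.2) ∈ SmF (q.2.1.map φ)}.ncard =
      {z : Fin 3 → k | z ≠ 0 ∧ bil (AA k) z z = 0}.ncard *
      {p : Matrix (Fin 3) (Fin 3) R × k | p.1 ∈ Fb a b c ∧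
        (MAS.e0, p.2) ∈ SmF (p.1.map φ)}.ncard := by
    rw [MAS.fib]
    have h3 : ∀ z : Fin 3 → k, {p : Matrix (Fin 3) (Fin 3) R × k |
        (z, p) ∈ {q : (Fin 3 → k) × (Matrix (Fin 3) (Fin 3) R × k) |
        q.2.1 ∈ Fb a b c ∧ (q.1, q.2.2) ∈ SmF (q.2.1.map φ)}}.ncard =
        if z ∈ {z : Fin 3 → k | z ≠ 0 ∧ bil (AA k) z z = 0} then
        {p : Matrix (Fin 3) (Fin 3) R × k | p.1 ∈ Fb a b c ∧
          (MAS.e0, p.2) ∈ SmF (p.1.map φ)}.ncard else 0 := by
      intro z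
      split_ifs with hz
      · exact hN z hz.1 hz.2
      · have : {p : Matrix (Fin 3) (Fin 3) R × k |
            (z, p) ∈ {q : (Fin 3 → k) × (Matrix (Fin 3) (Fin 3) R × k) |
            q.2.1 ∈ Fb a b c ∧ (q.1, q.2.2) ∈ SmF (q.2.1.map φ)}} = ∅ := by
          rw [Set.eq_empty_iff_forall_notMem]
          rintro p ⟨-, h4⟩
          exact hz ⟨h4.1, h4.2.1⟩
        rw [this, Set.ncard_empty]
    rw [Finset.sum_congr rfl (fun z _ => h3 z), Finset.sum_ite, Finset.sum_const_zero, add_zero,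
      Finset.sum_const, smul_eq_mul]
    congr 1
    rw [Set.ncard_eq_toFinset_card']
    apply congrArg
    ext z
    simp
  rw [hswap, hsum, MAS.card_E0 φ hs hu h2]
  have h3 := MAS.card_iso hk2
  have h4 := MAS.card_ker φ hs
  have h5 := MAS.card_units φ hu
  set I := {z : Fin 3 → k | z ≠ 0 ∧ bil (AA k) z z = 0}.ncard with hI
  set μ := {x : R | φ x = 0}.ncard with hμ
  set U := {x : R | IsUnit x}.ncard with hU
  have h3' : (I : ℝ) = (Nat.card k : ℝ) ^ 2 - 1 := by
    have : ((I + 1 : ℕ) : ℝ) = ((Nat.card k ^ 2 : ℕ) : ℝ) := by rw [h3]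
    push_cast at this
    linarith
  have h4' : (Nat.card R : ℝ) = Nat.card k * μ := by
    rw [h4]
    push_cast
    rfl
  have h5' : (U : ℝ) = (Nat.card k - 1) * μ := by
    have : ((U + μ : ℕ) : ℝ) = (Nat.card R : ℝ) := by rw [h5]
    rw [h4'] at this
    push_cast at this
    linarith
  push_cast
  rw [h3', h5', h4']
  ring

end Pool.AVS
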